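import Mathlib

/-!
# Continuation of the Barnes double zeta function with periods `1, a`

Mellin transforms: `Γ(s) F(s)` is the Mellin transform of
`f t = exp (-a t) / ((1 - exp (-t)) (1 - exp (-a t)))`. We subtract Taylor terms.
-/

set_option autoImplicit false

open Filter Topology Asymptotics Set MeasureTheory

namespace Pool.Agent.R736.BZ

/-- `(1 - exp (-b t)) / t`, extended to `t = 0`. -/
noncomputable def E (b : ℝ) : ℝ → ℝ := dslope (fun t => 1 - Real.exp (-b * t)) 0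

lemma E_of_ne {b t : ℝ} (ht : t ≠ 0) : E b t = (1 - Real.exp (-b * t)) / t := by
  simp [E, dslope_of_ne _ ht, slope_def_field]

lemma E_zero (b : ℝ) : E b 0 = b := by
  have h : HasDerivAt (fun t => 1 - Real.exp (-b * t)) (-(Real.exp (-b * 0) * (-b * 1))) 0 :=
    (((hasDerivAt_id (0 : ℝ)).const_mul (-b)).exp).const_sub 1
  simp only [E, dslope_same]
  rw [h.deriv]
  simp

lemma E_pos {b t : ℝ} (hb : 0 < b) (ht : 0 < t) : 0 < E b t := by
  rw [E_of_ne ht.ne']
  have : Real.exp (-b * t) < 1 := by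
    rw [Real.exp_lt_one_iff]
    nlinarith
  exact div_pos (by linarith) ht

lemma analyticAt_E (b : ℝ) : AnalyticAt ℝ (E b) 0 := by
  have h : AnalyticAt ℝ (fun t => 1 - Real.exp (-b * t)) 0 := by
    fun_prop
  obtain ⟨p, hp⟩ := h
  exact ⟨_, hp.has_fpower_series_dslope_fslope⟩

/-- the function `ψ`, `f t = exp (-t) ψ t / t ^ 2`. -/
noncomputable def psi (a : ℝ) (t : ℝ) : ℝ := Real.exp ((1 - a) * t) / (E 1 t * E a t)

lemma analyticAt_psi {a : ℝ} (ha : 0 < a) : AnalyticAt ℝ (psi a) 0 := by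
  have h1 : AnalyticAt ℝ (fun t => Real.exp ((1 - a) * t)) 0 := by fun_prop
  refine h1.div ((analyticAt_E 1).mul (analyticAt_E a)) ?_
  simp [E_zero, ha.ne']

lemma exists_coeff {a : ℝ} (ha : 0 < a) : ∃ c : ℕ → ℝ, ∀ K : ℕ,
    (fun t => psi a t - ∑ j ∈ Finset.range K, c j * t ^ j) =O[𝓝 0] fun t => t ^ K := by
  obtain ⟨p, hp⟩ := analyticAt_psi ha
  refine ⟨fun j => p.coeff j, fun K => ?_⟩
  have h := hp.isBigO_sub_partialSum_pow K
  simp only [zero_add, FormalMultilinearSeries.partialSum,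
    FormalMultilinearSeries.apply_eq_pow_smul_coeff, smul_eq_mul] at h
  have h2 : (fun y : ℝ => ‖y‖ ^ K) =O[𝓝 0] fun y => y ^ K := by
    refine IsBigO.of_norm_left ?_
    simp only [← norm_pow]
    exact (isBigO_refl _ _).norm_left.norm_left
  refine (h.trans h2).congr_left fun t => ?_
  simp only [mul_comm]

/-- `h K` -/
noncomputable def h (a : ℝ) (c : ℕ → ℝ) (K : ℕ) (t : ℝ) : ℝ :=
  Real.exp (-t) * (psi a t - ∑ j ∈ Finset.range K, c j * t ^ j) / t ^ 2

lemma h_zero {a : ℝ} {c : ℕ → ℝ} {t : ℝ} (ht : 0 < t) :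
    h a c 0 t = Real.exp (-a * t) * ((1 - Real.exp (-t))⁻¹ * (1 - Real.exp (-a * t))⁻¹) := by
  simp only [h, psi, Finset.range_zero, Finset.sum_empty, sub_zero, E_of_ne ht.ne']
  have h1 : Real.exp ((1 - a) * t) = Real.exp t * Real.exp (-a * t) := by
    rw [← Real.exp_add]; ring_nf
  have h2 : Real.exp (-t) * Real.exp t = 1 := by
    rw [← Real.exp_add]; simp
  rw [h1]
  simp only [neg_mul, one_mul]
  have ht' := ht.ne'
  generalize Real.exp (-(a * t)) = Y
  generalize Real.exp (-t) = X at h2 ⊢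
  generalize Real.exp t = Z at h2 ⊢
  by_cases hx : 1 - X = 0
  · simp [hx]
  by_cases hy : 1 - Y = 0
  · simp [hy]
  field_simp
  linear_combination Y * h2

lemma h_succ {a : ℝ} {c : ℕ → ℝ} {t : ℝ} (K : ℕ) :
    h a c K t - h a c (K + 1) t = c K * (t ^ K / t ^ 2 * Real.exp (-t)) := by
  simp only [h, Finset.sum_range_succ]
  ring

lemma continuousOn_h {a : ℝ} (ha : 0 < a) (c : ℕ → ℝ) (K : ℕ) :
    ContinuousOn (h a c K) (Ioi 0) := by
  have hE : ∀ b : ℝ, ContinuousOn (E b) (Ioi 0) := by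
    intro b
    have : ContinuousOn (fun t : ℝ => (1 - Real.exp (-b * t)) / t) (Ioi 0) := by
      refine ContinuousOn.div (by fun_prop) continuousOn_id ?_
      intro x hx
      exact (ne_of_gt hx)
    exact this.congr fun t ht => E_of_ne (ne_of_gt ht)
  have hpsi : ContinuousOn (psi a) (Ioi 0) := by
    refine ContinuousOn.div (by fun_prop) ((hE 1).mul (hE a)) ?_
    intro x hx
    exact (mul_pos (E_pos one_pos hx) (E_pos ha hx)).ne'
  refine ContinuousOn.div ?_ (by fun_prop) ?_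
  · exact ContinuousOn.mul (by fun_prop) (hpsi.sub (by fun_prop))
  · intro x hx
    exact pow_ne_zero _ (ne_of_gt hx)

lemma h_top {a : ℝ} (ha : 1 < a) (c : ℕ → ℝ) (K : ℕ) :
    (h a c K) =O[atTop] fun t => Real.exp (-(1 / 2) * t) := by
  have hexp : (fun t : ℝ => Real.exp (-t)) =O[atTop] fun t => Real.exp (-(1 / 2) * t) := by
    refine IsBigO.of_bound 1 ?_
    filter_upwards [eventually_ge_atTop 0] with t ht
    rw [one_mul, Real.norm_of_nonneg (Real.exp_pos _).le, Real.norm_of_nonneg (Real.exp_pos _).le]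
    exact Real.exp_le_exp.2 (by linarith)
  induction K with
  | zero =>
    refine IsBigO.trans ?_ hexp
    refine IsBigO.of_bound ((1 - Real.exp (-1))⁻¹ * (1 - Real.exp (-1))⁻¹) ?_
    filter_upwards [eventually_ge_atTop 1] with t ht
    have ht0 : (0 : ℝ) < t := by linarith
    rw [h_zero ht0]
    have e1 : Real.exp (-1) < 1 := by
      rw [Real.exp_lt_one_iff]; norm_num
    have e2 : Real.exp (-t) ≤ Real.exp (-1) := Real.exp_le_exp.2 (by linarith)
    have e3 : Real.exp (-a * t) ≤ Real.exp (-1) := Real.exp_le_exp.2 (by nlinarith)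
    have e4 : Real.exp (-a * t) ≤ Real.exp (-t) := Real.exp_le_exp.2 (by nlinarith)
    have p1 : 0 < 1 - Real.exp (-1) := by linarith
    have p2 : 0 < 1 - Real.exp (-t) := by linarith
    have p3 : 0 < 1 - Real.exp (-a * t) := by linarith
    have q2 : (1 - Real.exp (-t))⁻¹ ≤ (1 - Real.exp (-1))⁻¹ := inv_anti₀ p1 (by linarith)
    have q3 : (1 - Real.exp (-a * t))⁻¹ ≤ (1 - Real.exp (-1))⁻¹ := inv_anti₀ p1 (by linarith)
    rw [Real.norm_of_nonneg (by positivity), Real.norm_of_nonneg (Real.exp_pos _).le, mul_comm]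
    gcongr
  | succ K ih =>
    have h1 : (fun t : ℝ => c K * (t ^ K / t ^ 2 * Real.exp (-t))) =O[atTop]
        fun t => Real.exp (-(1 / 2) * t) := by
      refine IsBigO.const_mul_left ?_ _
      have h2 : (fun t : ℝ => t ^ K) =O[atTop] fun t => Real.exp ((1 / 2) * t) :=
        (isLittleO_pow_exp_pos_mul_atTop K (by norm_num)).isBigO
      have h3 : (fun t : ℝ => t ^ K / t ^ 2) =O[atTop] fun t => Real.exp ((1 / 2) * t) := by
        refine IsBigO.trans ?_ h2
        refine IsBigO.of_bound 1 ?_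
        filter_upwards [eventually_ge_atTop 1] with t ht
        rw [one_mul, norm_div]
        refine div_le_self (norm_nonneg _) ?_
        rw [norm_pow]
        refine one_le_pow₀ ?_
        rw [Real.norm_eq_abs]
        exact ht.trans (le_abs_self t)
      have h4 := h3.mul (isBigO_refl (fun t : ℝ => Real.exp (-t)) atTop)
      refine h4.congr_right fun t => ?_
      rw [← Real.exp_add]
      ring_nf
    have h5 := ih.sub h1
    refine h5.congr_left fun t => ?_
    have := h_succ (a := a) (c := c) (t := t) K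
    linarith

lemma h_bot {a : ℝ} {c : ℕ → ℝ} (hc : ∀ K : ℕ,
    (fun t => psi a t - ∑ j ∈ Finset.range K, c j * t ^ j) =O[𝓝 0] fun t => t ^ K) (K : ℕ) :
    (h a c K) =O[𝓝[>] 0] fun t => t ^ (-(2 - (K : ℝ))) := by
  have h1 : (fun t => psi a t - ∑ j ∈ Finset.range K, c j * t ^ j) =O[𝓝[>] 0] fun t => t ^ K :=
    (hc K).mono nhdsWithin_le_nhds
  have h2 : (fun t : ℝ => Real.exp (-t)) =O[𝓝[>] 0] fun _ => (1 : ℝ) := by
    refine IsBigO.of_bound 1 ?_
    filter_upwards [self_mem_nhdsWithin] with t ht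
    rw [Real.norm_of_nonneg (Real.exp_pos _).le]
    simp only [one_mul, norm_one]
    rw [Real.exp_le_one_iff]
    have : (0 : ℝ) < t := ht
    linarith
  have h3 := (h2.mul h1).mul (isBigO_refl (fun t : ℝ => (t ^ 2)⁻¹) (𝓝[>] 0))
  refine (h3.congr_left fun t => ?_).trans ?_
  · simp only [h]; rw [div_eq_mul_inv]
  · refine IsBigO.of_bound 1 ?_
    filter_upwards [self_mem_nhdsWithin] with t ht
    have ht' : (0 : ℝ) < t := ht
    rw [one_mul, one_mul]
    refine le_of_eq ?_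
    congr 1
    rw [neg_sub, Real.rpow_sub ht', Real.rpow_natCast, div_eq_mul_inv]
    norm_num

/-- complexified -/
noncomputable def H (a : ℝ) (c : ℕ → ℝ) (K : ℕ) (t : ℝ) : ℂ := ((h a c K t : ℝ) : ℂ)

section

variable {a : ℝ} {c : ℕ → ℝ}

lemma H_loc (ha : 0 < a) (K : ℕ) : LocallyIntegrableOn (H a c K) (Ioi 0) := by
  refine ContinuousOn.locallyIntegrableOn ?_ measurableSet_Ioi
  exact Complex.continuous_ofReal.comp_continuousOn (continuousOn_h ha c K)

lemma H_top (ha : 1 < a) (K : ℕ) :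
    (H a c K) =O[atTop] fun t => Real.exp (-(1 / 2) * t) := by
  refine IsBigO.of_norm_left ?_
  simp only [H, Complex.norm_real]
  exact (h_top ha c K).norm_left

lemma H_bot (hc : ∀ K : ℕ,
    (fun t => psi a t - ∑ j ∈ Finset.range K, c j * t ^ j) =O[𝓝 0] fun t => t ^ K) (K : ℕ) :
    (H a c K) =O[𝓝[>] 0] fun t => t ^ (-(2 - (K : ℝ))) := by
  refine IsBigO.of_norm_left ?_
  simp only [H, Complex.norm_real]
  exact (h_bot hc K).norm_left

lemma H_conv (ha : 1 < a) (hc : ∀ K : ℕ,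
    (fun t => psi a t - ∑ j ∈ Finset.range K, c j * t ^ j) =O[𝓝 0] fun t => t ^ K) {K : ℕ} {s : ℂ}
    (hs : 2 - (K : ℝ) < s.re) : MellinConvergent (H a c K) s :=
  mellinConvergent_of_isBigO_rpow_exp (by norm_num : (0 : ℝ) < 1 / 2) (H_loc (by linarith) K)
    (H_top ha K) (H_bot hc K) hs

lemma H_diff (ha : 1 < a) (hc : ∀ K : ℕ,
    (fun t => psi a t - ∑ j ∈ Finset.range K, c j * t ^ j) =O[𝓝 0] fun t => t ^ K) {K : ℕ} {s : ℂ}
    (hs : 2 - (K : ℝ) < s.re) : DifferentiableAt ℂ (mellin (H a c K)) s :=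
  mellin_differentiableAt_of_isBigO_rpow_exp (by norm_num : (0 : ℝ) < 1 / 2)
    (H_loc (by linarith) K) (H_top ha K) (H_bot hc K) hs

lemma H_succ (ha : 1 < a) (hc : ∀ K : ℕ,
    (fun t => psi a t - ∑ j ∈ Finset.range K, c j * t ^ j) =O[𝓝 0] fun t => t ^ K) {K : ℕ} {s : ℂ}
    (hs : 2 - (K : ℝ) < s.re) :
    mellin (H a c K) s = mellin (H a c (K + 1)) s + c K * Complex.Gamma (s + (K - 2)) := by
  have h1 : MellinConvergent (H a c K) s := H_conv ha hc hs
  have h2 : MellinConvergent (H a c (K + 1)) s := H_conv ha hc (by push_cast; linarith)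
  have h3 := (hasMellin_sub h1 h2).2
  have h4 : mellin (fun t => H a c K t - H a c (K + 1) t) s =
      mellin (fun t => (c K : ℂ) • ((t : ℂ) ^ ((K : ℂ) - 2) • ((Real.exp (-t) : ℝ) : ℂ))) s := by
    unfold mellin
    refine setIntegral_congr_fun measurableSet_Ioi fun t ht => ?_
    have ht' : (0 : ℝ) < t := ht
    simp only
    congr 1
    simp only [H]
    rw [← Complex.ofReal_sub, h_succ]
    simp only [smul_eq_mul]
    rw [Complex.cpow_sub _ _ (by exact_mod_cast ht'.ne'), Complex.cpow_natCast]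
    push_cast
    norm_num
  rw [h4, mellin_const_smul, mellin_cpow_smul] at h3
  rw [Complex.Gamma_eq_integral (by simp; linarith), Complex.GammaIntegral_eq_mellin]
  rw [smul_eq_mul] at h3
  rw [h3]
  ring

end

lemma gamma_prod (k : ℕ) : ∀ s : ℂ, -(k : ℝ) < s.re →
    (Complex.Gamma s)⁻¹ * Complex.Gamma (s + k) = ∏ i ∈ Finset.range k, (s + i) := by
  induction k with
  | zero =>
    intro s hs
    simp only [Nat.cast_zero, neg_zero] at hs
    simp [inv_mul_cancel₀ (Complex.Gamma_ne_zero_of_re_pos hs)]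
  | succ k ih =>
    intro s hs
    rw [Complex.one_div_Gamma_eq_self_mul_one_div_Gamma_add_one, Finset.prod_range_succ']
    have h1 := ih (s + 1) (by simp; push_cast at hs; linarith)
    have h2 : s + ((k + 1 : ℕ) : ℂ) = s + 1 + k := by push_cast; ring
    rw [h2, mul_assoc, h1]
    simp only [Nat.cast_zero, add_zero, Nat.cast_add, Nat.cast_one]
    rw [mul_comm]
    congr 1
    refine Finset.prod_congr rfl fun i _ => ?_
    ring

/-- the continuation to `Re s > -k`. -/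
noncomputable def G (a : ℝ) (c : ℕ → ℝ) (k : ℕ) (s : ℂ) : ℂ :=
  mellin (H a c (k + 2)) s * (Complex.Gamma s)⁻¹ + c 0 / ((s - 1) * (s - 2)) + c 1 / (s - 1) +
    ∑ j ∈ Finset.range k, c (j + 2) * ∏ i ∈ Finset.range j, (s + i)

section

variable {a : ℝ} {c : ℕ → ℝ}

lemma G_succ (ha : 1 < a) (hc : ∀ K : ℕ,
    (fun t => psi a t - ∑ j ∈ Finset.range K, c j * t ^ j) =O[𝓝 0] fun t => t ^ K) {k : ℕ} {s : ℂ}
    (hs : -(k : ℝ) < s.re) : G a c k s = G a c (k + 1) s := by
  simp only [G, Finset.sum_range_succ]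
  have h1 := H_succ ha hc (K := k + 2) (s := s) (by push_cast; linarith)
  have h2 : s + (((k + 2 : ℕ) : ℂ) - 2) = s + k := by push_cast; ring
  rw [h2] at h1
  have h3 := gamma_prod k s hs
  rw [h1, ← h3]
  have h4 : k + 2 + 1 = k + 1 + 2 := by ring
  rw [h4]
  ring

lemma G_le (ha : 1 < a) (hc : ∀ K : ℕ,
    (fun t => psi a t - ∑ j ∈ Finset.range K, c j * t ^ j) =O[𝓝 0] fun t => t ^ K) {k : ℕ} {s : ℂ}
    (hs : -(k : ℝ) < s.re) (l : ℕ) : G a c k s = G a c (k + l) s := by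
  induction l with
  | zero => rfl
  | succ l ih =>
    rw [ih, ← add_assoc]
    refine G_succ ha hc ?_
    push_cast
    have : (0 : ℝ) ≤ l := Nat.cast_nonneg _
    linarith

lemma G_eq (ha : 1 < a) (hc : ∀ K : ℕ,
    (fun t => psi a t - ∑ j ∈ Finset.range K, c j * t ^ j) =O[𝓝 0] fun t => t ^ K) {k l : ℕ} {s : ℂ}
    (hk : -(k : ℝ) < s.re) (hl : -(l : ℝ) < s.re) : G a c k s = G a c l s := by
  rcases le_total k l with h | h
  · obtain ⟨m, rfl⟩ := Nat.exists_eq_add_of_le h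
    exact G_le ha hc hk m
  · obtain ⟨m, rfl⟩ := Nat.exists_eq_add_of_le h
    exact (G_le ha hc hl m).symm

lemma G_diff (ha : 1 < a) (hc : ∀ K : ℕ,
    (fun t => psi a t - ∑ j ∈ Finset.range K, c j * t ^ j) =O[𝓝 0] fun t => t ^ K) {k : ℕ} {s : ℂ}
    (hs : -(k : ℝ) < s.re) (h1 : s ≠ 1) (h2 : s ≠ 2) : DifferentiableAt ℂ (G a c k) s := by
  have e1 : s - 1 ≠ 0 := sub_ne_zero.2 h1
  have e2 : s - 2 ≠ 0 := sub_ne_zero.2 h2
  have d1 : DifferentiableAt ℂ (mellin (H a c (k + 2))) s :=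
    H_diff ha hc (by push_cast; linarith)
  have d2 : DifferentiableAt ℂ (fun s : ℂ => (Complex.Gamma s)⁻¹) s :=
    Complex.differentiable_one_div_Gamma s
  unfold G
  refine ((((d1.mul d2).add ?_).add ?_).add ?_)
  · refine DifferentiableAt.div (by fun_prop) (by fun_prop) (mul_ne_zero e1 e2)
  · refine DifferentiableAt.div (by fun_prop) (by fun_prop) e1
  · fun_prop

lemma G_zero (ha : 1 < a) (hc : ∀ K : ℕ,
    (fun t => psi a t - ∑ j ∈ Finset.range K, c j * t ^ j) =O[𝓝 0] fun t => t ^ K) {s : ℂ}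
    (hs : 2 < s.re) : G a c 0 s = mellin (H a c 0) s * (Complex.Gamma s)⁻¹ := by
  have h0 := H_succ ha hc (K := 0) (s := s) (by push_cast; linarith)
  have h1 := H_succ ha hc (K := 1) (s := s) (by push_cast; linarith)
  simp only [G, Finset.range_zero, Finset.sum_empty, add_zero, zero_add]
  have e0 : s + (((0 : ℕ) : ℂ) - 2) = s - 2 := by push_cast; ring
  have e1 : s + (((1 : ℕ) : ℂ) - 2) = s - 1 := by push_cast; ring
  rw [e0] at h0
  rw [e1] at h1
  have g1 : Complex.Gamma s = (s - 1) * Complex.Gamma (s - 1) := by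
    have := Complex.Gamma_add_one (s - 1) (by
      intro h; have := congrArg Complex.re h; simp at this; linarith)
    rw [← this]; ring_nf
  have g2 : Complex.Gamma (s - 1) = (s - 2) * Complex.Gamma (s - 2) := by
    have := Complex.Gamma_add_one (s - 2) (by
      intro h; have := congrArg Complex.re h; simp at this; linarith)
    rw [← this]; ring_nf
  have n1 : s - 1 ≠ 0 := by
    intro h; have := congrArg Complex.re h; simp at this; linarith
  have n2 : s - 2 ≠ 0 := by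
    intro h; have := congrArg Complex.re h; simp at this; linarith
  have n3 : Complex.Gamma (s - 2) ≠ 0 := Complex.Gamma_ne_zero_of_re_pos (by simp; linarith)
  rw [h0, show (0 : ℕ) + 1 = 1 from rfl, h1, show (1 : ℕ) + 1 = 2 from rfl, g1, g2]
  field_simp
  ring

end

lemma summable_one (x : ℝ) (hx : 1 < x) : Summable fun n : ℕ => ((n : ℝ) + 1) ^ (-x) := by
  have h := (Real.summable_nat_rpow (p := -x)).2 (by linarith)
  have h2 := (summable_nat_add_iff 1).2 h
  refine h2.congr fun n => ?_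
  push_cast
  rfl

lemma lam_pos {a : ℝ} (ha : 1 < a) (p : ℕ × ℕ) : 0 < a + p.1 + p.2 * a := by
  have h1 : (0 : ℝ) ≤ p.1 := Nat.cast_nonneg _
  have h2 : (0 : ℝ) ≤ p.2 := Nat.cast_nonneg _
  nlinarith

lemma lam_ge {a : ℝ} (ha : 1 < a) (p : ℕ × ℕ) (x : ℝ) (hx : 2 < x) :
    1 / (a + p.1 + p.2 * a) ^ x ≤ ((p.1 : ℝ) + 1) ^ (-(x / 2)) * ((p.2 : ℝ) + 1) ^ (-(x / 2)) := by
  have h1 : (0 : ℝ) ≤ p.1 := Nat.cast_nonneg _
  have h2 : (0 : ℝ) ≤ p.2 := Nat.cast_nonneg _
  have hl := lam_pos ha p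
  have e : (((p.1 : ℝ) + 1) * ((p.2 : ℝ) + 1)) ≤ (a + p.1 + p.2 * a) ^ (2 : ℕ) := by
    have : (p.1 : ℝ) + p.2 + 1 ≤ a + p.1 + p.2 * a := by nlinarith
    nlinarith
  have e2 : (((p.1 : ℝ) + 1) * ((p.2 : ℝ) + 1)) ^ (x / 2) ≤ (a + p.1 + p.2 * a) ^ x := by
    calc (((p.1 : ℝ) + 1) * ((p.2 : ℝ) + 1)) ^ (x / 2)
        ≤ ((a + p.1 + p.2 * a) ^ (2 : ℕ)) ^ (x / 2) :=
          Real.rpow_le_rpow (by positivity) e (by linarith)
      _ = (a + p.1 + p.2 * a) ^ x := by
          rw [← Real.rpow_natCast, ← Real.rpow_mul hl.le]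
          congr 1
          push_cast
          ring
  rw [Real.mul_rpow (by positivity) (by positivity)] at e2
  rw [Real.rpow_neg (by positivity), Real.rpow_neg (by positivity), ← mul_inv, one_div]
  exact inv_anti₀ (by positivity) e2

lemma summable_lam {a : ℝ} (ha : 1 < a) (x : ℝ) (hx : 2 < x) :
    Summable fun p : ℕ × ℕ => 1 / (a + p.1 + p.2 * a) ^ x := by
  have h := (summable_one (x / 2) (by linarith)).mul_of_nonneg (summable_one (x / 2) (by linarith))
    (fun n => by positivity) (fun n => by positivity)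
  refine Summable.of_nonneg_of_le (fun p => ?_) (fun p => lam_ge ha p x hx) h
  have := lam_pos ha p
  positivity

lemma hasSum_f {a : ℝ} (ha : 1 < a) (c : ℕ → ℝ) {t : ℝ} (ht : 0 < t) :
    HasSum (fun p : ℕ × ℕ => Real.exp (-(a + p.1 + p.2 * a) * t)) (h a c 0 t) := by
  have g1 : HasSum (fun n : ℕ => Real.exp (-t) ^ n) (1 - Real.exp (-t))⁻¹ :=
    hasSum_geometric_of_lt_one (Real.exp_pos _).le (by rw [Real.exp_lt_one_iff]; linarith)
  have g2 : HasSum (fun n : ℕ => Real.exp (-a * t) ^ n) (1 - Real.exp (-a * t))⁻¹ :=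
    hasSum_geometric_of_lt_one (Real.exp_pos _).le (by rw [Real.exp_lt_one_iff]; nlinarith)
  have g3 : Summable fun x : ℕ × ℕ => Real.exp (-t) ^ x.1 * Real.exp (-a * t) ^ x.2 :=
    g1.summable.mul_of_nonneg g2.summable (fun n => by positivity) (fun n => by positivity)
  have g4 := (g1.mul g2 g3).mul_left (Real.exp (-a * t))
  rw [h_zero ht]
  refine g4.congr_fun ?_ |> fun h => h
  intro p
  rw [← Real.exp_nat_mul, ← Real.exp_nat_mul, ← Real.exp_add, ← Real.exp_add]
  congr 1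
  ring

theorem exists_continuation (a : ℝ) (ha : 1 < a) :
    ∃ F : ℂ → ℂ, DifferentiableOn ℂ F {s | s ≠ 1 ∧ s ≠ 2} ∧
      ∀ s : ℂ, 2 < s.re → F s = ∑' p : ℕ × ℕ, (((a + p.1 + p.2 * a : ℝ)) : ℂ) ^ (-s) := by
  obtain ⟨c, hc⟩ := exists_coeff (a := a) (by linarith)
  have hk : ∀ s : ℂ, -((⌈-s.re⌉₊ + 1 : ℕ) : ℝ) < s.re := by
    intro s
    have := Nat.le_ceil (-s.re)
    push_cast
    linarith
  refine ⟨fun s => G a c (⌈-s.re⌉₊ + 1) s, ?_, ?_⟩
  · intro s hs
    refine DifferentiableAt.differentiableWithinAt ?_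
    have h1 := G_diff ha hc (hk s) hs.1 hs.2
    refine h1.congr_of_eventuallyEq ?_
    have h2 : ∀ᶠ z : ℂ in 𝓝 s, -((⌈-s.re⌉₊ + 1 : ℕ) : ℝ) < z.re :=
      (Complex.continuous_re.continuousAt).eventually (lt_mem_nhds (hk s))
    filter_upwards [h2] with z hz
    exact G_eq ha hc (hk z) hz
  · intro s hs
    have h0 : G a c (⌈-s.re⌉₊ + 1) s = G a c 0 s := G_eq ha hc (hk s) (by simp; linarith)
    simp only
    rw [h0, G_zero ha hc hs]
    have hm := hasSum_mellin (ι := ℕ × ℕ) (a := fun _ => 1) (p := fun p => a + p.1 + p.2 * a)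
      (F := H a c 0) (s := s) (fun i => Or.inr (lam_pos ha i)) (by linarith) (by
        intro t ht
        have := hasSum_f ha c (show (0 : ℝ) < t from ht)
        simp only [H, one_mul]
        exact_mod_cast this) (by
        simpa using summable_lam ha s.re hs)
    have hm2 := hm.mul_right (Complex.Gamma s)⁻¹
    rw [← hm2.tsum_eq]
    refine tsum_congr fun p => ?_
    have hg : Complex.Gamma s ≠ 0 := Complex.Gamma_ne_zero_of_re_pos (by linarith)
    rw [Complex.cpow_neg]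
    field_simp

end Pool.Agent.R736.BZ
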